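import Mathlib
import Pool.Agent.H33.Liou2

set_option autoImplicit false

open Pool.Agent.H33.Liou MeasureTheory Filter in
theorem Pool.Agent.Results.MP_09df17_pr.Q1.result :
    ∃ (V : Type) (_ : Countable V) (G : SimpleGraph V) (_ : AddAction ℤ V) (D : Set V),
      G.Connected ∧ (∀ x, (G.neighborSet x).Finite) ∧
      (∀ (k : ℤ) (x y : V), G.Adj (k +ᵥ x) (k +ᵥ y) ↔ G.Adj x y) ∧
      (∀ (k : ℤ) (x : V), k +ᵥ x = x → k = 0) ∧
      QuotLiouville G ∧
      (∀ x : V, ∃! d, d ∈ D ∧ d ∈ AddAction.orbit ℤ x) ∧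
      (G.induce D).Connected ∧
      (letI : MeasurableSpace V := ⊤
       IsProbabilityMeasure (stepLaw G) ∧ ∀ x : V, ∀ᵐ ω ∂stepLaw G, ∀ k : ℤ,
        ∃ᶠ t in atTop, ∃ d ∈ D, walk x ω t = k +ᵥ d) ∧
      ¬ Liouville G := by
  refine ⟨Vx, inferInstance, G, inferInstance, {x : Vx | x.2 = (0 : ℤ)}, conn, fun x => ?_,
    fun k x y => or_congr (up_vadd k x y) (up_vadd k y x), fun k x h => ?_, quot_liou, fun x => ?_,
    conn_D, ⟨(inferInstance : IsProbabilityMeasure (stepLaw G)), fun x => ?_⟩, not_liou⟩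
  · rw [nb_eq]; exact Finset.finite_toSet _
  · have : k + x.2 = x.2 := congrArg Prod.snd h
    omega
  · refine ⟨(x.1, 0), ⟨rfl, -x.2, ?_⟩, ?_⟩
    · show (x.1, -x.2 + x.2) = (x.1, 0)
      rw [neg_add_cancel]
    · rintro y ⟨h, k, rfl⟩
      exact Prod.ext rfl h
  · filter_upwards [visits x] with ω h k
    refine (h k).mono fun t ht => ⟨((walk x ω t).1, 0), rfl, ?_⟩
    exact Prod.ext rfl (ht.trans (add_zero k).symm)
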